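import Pool.Agent.H525.EX.Stm5

/-! EX/LV3 (helper996 for helper525): the low rows. -/

set_option autoImplicit false

namespace Pool.Agent.H996.EX

open Pool.Agent.H525.EX

theorem off_diag {ε g : ℝ} {m : ℤ} {f : Arr} (hε : ε = 1 ∨ ε = -1) (h : Lev ε g m f) :
    ∀ k : ℕ, ∀ N : ℤ, N < (k : ℤ) → N < m → ∀ E : ℤ, E ≠ N → f N E = 0 := by
  have hε0 : ε ≠ 0 := by
    rcases hε with h1 | h1
    · rw [h1]
      norm_num
    · rw [h1]
      norm_num
  intro k
  induction k with
  | zero =>
    intro N hN _ E _
    exact h.fn N E (by simpa using hN)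
  | succ k ih =>
    intro N hk hm E hE
    have hk' : N ≤ (k : ℤ) := by
      push_cast at hk
      linarith
    by_cases h0 : N < 0
    · exact h.fn N E h0
    rcases lt_or_gt_of_ne hE with h1 | h1
    · have h2 := h.sym N E
      rw [h.fn (N - m) _ (by linarith), h.fn (E - m) _ (by linarith), mul_zero, sub_zero,
        sub_zero] at h2
      rw [h2]
      exact ih E (by linarith) (by linarith) N hE.symm
    · have h2 := h.tau N E
      rw [ih (2 * N - E) (by linarith) (by linarith) (3 * N - 2 * E) (fun h3 => hE (by linarith))]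
        at h2
      rcases mul_eq_zero.1 h2.symm with h3 | h3
      · exact absurd h3 (zpow_ne_zero _ hε0)
      · exact h3

theorem t_lv3 : Pool.Agent.H525.EX.S_lv3 := by
  intro ε g m f hε h N hN
  have hoff : ∀ E : ℤ, E ≠ N → f N E = 0 := by
    intro E hE
    refine off_diag hε h (N.toNat + 1) N ?_ hN E hE
    push_cast
    have := Int.self_le_toNat N
    linarith
  have hdiag : N ≠ 0 → f N N = 0 := by
    intro h0
    by_cases hneg : N < 0
    · exact h.fn N N hneg
    · have h1 := h.nor N
      rw [if_neg h0, Finset.sum_eq_single N] at h1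
      · exact h1
      · intro E _ hne
        exact hoff E hne
      · intro h2
        exact absurd (Finset.mem_Icc.2 ⟨by linarith, by linarith⟩) h2
  unfold dl
  rw [neg_eq_zero]
  refine Finset.sum_eq_zero fun E _ => ?_
  by_cases hE : E = N
  · rw [hE]
    by_cases h0 : N = 0
    · rw [h0, Int.cast_zero, zero_mul]
    · rw [hdiag h0, mul_zero]
  · rw [hoff E hE, mul_zero]

end Pool.Agent.H996.EX
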